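import Mathlib

/-!
Schur numbers: the inequality S(n) <= n (S(n-1) + 1) up to factors 1 + a_n.

Schur's argument gives S(n) < 3 n!, the classical tripling gives S(n) >= 3 S(n-1) + 1.
If F is the set of n at which S(n) > (1 + a_n) n (S(n-1) + 1), then
  (S(M)/M!) prod_(n in F, M < n <= N) (1 + a_n) <= (S(N)/N!) prod_(n not in F, M < n <= N) (n / 3).
-/

namespace Pool.Agent.Results.MP_a4f665_co.NearMisses

open Finset Filter

/-- `{1, ..., N}` has a partition into `n` classes without `x + y = z` in one class. -/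
def Good (n N : ℕ) : Prop :=
  ∃ c : ℕ → Fin n, ∀ x y : ℕ, 1 ≤ x → 1 ≤ y → x + y ≤ N → ¬ (c x = c y ∧ c y = c (x + y))

/-- The Schur number `S(n)`. -/
noncomputable def schur (n : ℕ) : ℕ := sSup {N : ℕ | Good n N}

/-- `f(0) = 1`, `f(n+1) = (n+1) f(n) + 1`. -/
def f : ℕ → ℕ
  | 0 => 1
  | n + 1 => (n + 1) * f n + 1

lemma f_le : ∀ n : ℕ, f (n + 1) + 1 ≤ 3 * (n + 1).factorial
  | 0 => by simp [f]
  | n + 1 => by
    have h := f_le n
    have h2 : f (n + 2) = (n + 2) * f (n + 1) + 1 := rfl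
    have h3 : (n + 2).factorial = (n + 2) * (n + 1).factorial := Nat.factorial_succ _
    rw [h2, h3]
    nlinarith [h]

/-- Sets of integers whose differences are coloured without monochromatic triple. -/
lemma card_le_f {κ : Type*} [DecidableEq κ] (c : ℕ → κ) : ∀ (n : ℕ) (T : Finset κ) (X : Finset ℕ),
    T.card = n → (∀ x ∈ X, ∀ y ∈ X, x < y → c (y - x) ∈ T) →
    (∀ x ∈ X, ∀ y ∈ X, ∀ z ∈ X, x < y → y < z →
      ¬ (c (y - x) = c (z - y) ∧ c (z - y) = c (z - x))) → X.card ≤ f n := by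
  intro n
  induction n with
  | zero =>
    intro T X hT hX _
    rw [card_eq_zero] at hT
    subst hT
    refine card_le_one.2 fun a ha b hb => ?_
    rcases lt_trichotomy a b with h | h | h
    · exact absurd (hX a ha b hb h) (notMem_empty _)
    · exact h
    · exact absurd (hX b hb a ha h) (notMem_empty _)
  | succ n ih =>
    intro T X hT hX hmono
    rcases X.eq_empty_or_nonempty with rfl | hne
    · simp
    · set x0 := X.min' hne with hx0
      have hx0m : x0 ∈ X := X.min'_mem hne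
      have hlt : ∀ y ∈ X.erase x0, x0 < y := by
        intro y hy
        rw [mem_erase] at hy
        exact lt_of_le_of_ne (X.min'_le y hy.2) (Ne.symm hy.1)
      by_contra hcon
      push Not at hcon
      have hc1 : T.card * f n < (X.erase x0).card := by
        rw [card_erase_of_mem hx0m, hT]
        have : f (n + 1) = (n + 1) * f n + 1 := rfl
        omega
      obtain ⟨i, hi, hbig⟩ := exists_lt_card_fiber_of_mul_lt_card_of_maps_to
        (s := X.erase x0) (t := T) (f := fun y => c (y - x0)) (n := f n)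
        (fun y hy => hX x0 hx0m y (mem_of_mem_erase hy) (hlt y hy)) hc1
      set Y := (X.erase x0).filter (fun y => c (y - x0) = i) with hY
      have hYX : ∀ y ∈ Y, y ∈ X ∧ x0 < y ∧ c (y - x0) = i := by
        intro y hy
        rw [hY, mem_filter] at hy
        exact ⟨mem_of_mem_erase hy.1, hlt y hy.1, hy.2⟩
      have hle := ih (T.erase i) Y (by rw [card_erase_of_mem hi, hT]; rfl) ?_ ?_
      · exact absurd hbig (not_lt.2 hle)
      · intro x hx y hy hxy
        obtain ⟨hxX, hxl, hxc⟩ := hYX x hx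
        obtain ⟨hyX, hyl, hyc⟩ := hYX y hy
        rw [mem_erase]
        refine ⟨fun h => ?_, hX x hxX y hyX hxy⟩
        exact hmono x0 hx0m x hxX y hyX hxl hxy ⟨hxc.trans h.symm, h.trans hyc.symm⟩
      · intro x hx y hy z hz
        exact hmono x (hYX x hx).1 y (hYX y hy).1 z (hYX z hz).1

/-- Schur 1916. -/
lemma good_lt {n N : ℕ} (h : Good n N) : N < f n := by
  classical
  obtain ⟨c, hc⟩ := h
  have := card_le_f c n (univ : Finset (Fin n)) (range (N + 1)) (by simp)
    (fun _ _ _ _ _ => mem_univ _) ?_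
  · rw [card_range] at this
    omega
  · intro x hx y hy z hz hxy hyz
    rw [mem_range] at hx hy hz
    have := hc (y - x) (z - y) (by omega) (by omega) (by omega)
    rwa [show y - x + (z - y) = z - x by omega] at this

lemma bdd (n : ℕ) : BddAbove {N : ℕ | Good n N} :=
  ⟨f n, fun _ h => (good_lt h).le⟩

/-- Tripling. -/
lemma good_triple {n N : ℕ} (h : Good n N) : Good (n + 1) (3 * N + 1) := by
  obtain ⟨c, hc⟩ := h
  refine ⟨fun x => if x % 3 = 1 then Fin.last n else (c ((x + 1) / 3)).castSucc, ?_⟩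
  intro x y hx hy hxy hmono
  simp only at hmono
  obtain ⟨h1, h2⟩ := hmono
  by_cases hx1 : x % 3 = 1
  · rw [if_pos hx1] at h1
    by_cases hy1 : y % 3 = 1
    · rw [if_pos hy1] at h2
      have hxy1 : ¬ ((x + y) % 3 = 1) := by omega
      rw [if_neg hxy1] at h2
      exact (Fin.castSucc_lt_last _).ne h2.symm
    · rw [if_neg hy1] at h1
      exact (Fin.castSucc_lt_last _).ne h1.symm
  · rw [if_neg hx1] at h1
    by_cases hy1 : y % 3 = 1
    · rw [if_pos hy1] at h1
      exact (Fin.castSucc_lt_last _).ne h1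
    · rw [if_neg hy1] at h1 h2
      by_cases hxy1 : (x + y) % 3 = 1
      · rw [if_pos hxy1] at h2
        exact (Fin.castSucc_lt_last _).ne h2
      · rw [if_neg hxy1] at h2
        have e1 := Fin.castSucc_injective _ h1
        have e2 := Fin.castSucc_injective _ h2
        have e3 : (x + y + 1) / 3 = (x + 1) / 3 + (y + 1) / 3 := by omega
        rw [e3] at e2
        exact hc ((x + 1) / 3) ((y + 1) / 3) (by omega) (by omega) (by omega) ⟨e1, e2⟩

lemma good_one : Good 1 1 := by
  refine ⟨fun _ => 0, ?_⟩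
  intro x y hx hy hxy
  omega

lemma good_schur {n : ℕ} (hn : 1 ≤ n) : Good n (schur n) := by
  have hne : {N : ℕ | Good n N}.Nonempty := by
    refine ⟨0, fun _ => ⟨0, hn⟩, ?_⟩
    intro x y hx hy hxy
    omega
  exact Nat.sSup_mem hne (bdd n)

lemma schur_triple {n : ℕ} (hn : 1 ≤ n) : 3 * schur n + 1 ≤ schur (n + 1) :=
  le_csSup (bdd _) (good_triple (good_schur hn))

lemma schur_pos {n : ℕ} (hn : 1 ≤ n) : 1 ≤ schur n := by
  induction n, hn using Nat.le_induction with
  | base => exact le_csSup (bdd _) good_one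
  | succ n hn ih =>
    have := schur_triple hn
    omega

lemma schur_lt {n : ℕ} (hn : 1 ≤ n) : schur n < 3 * n.factorial := by
  obtain ⟨k, rfl⟩ := Nat.exists_eq_add_of_le' hn
  have h1 := good_lt (good_schur hn)
  have h2 := f_le k
  omega

/-- One step at an `n` outside the set `F`. -/
lemma step_out {n : ℕ} (hn : 1 ≤ n) {P : ℝ} (hP : 0 ≤ P) :
    (schur n : ℝ) / n.factorial * P
      ≤ (schur (n + 1) : ℝ) / (n + 1).factorial * (P * (((n + 1 : ℕ) : ℝ) / 3)) := by
  have h3 : (3 : ℝ) * schur n + 1 ≤ schur (n + 1) := by exact_mod_cast schur_triple hn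
  have hf : (0 : ℝ) < n.factorial := by exact_mod_cast n.factorial_pos
  have hn1 : (0 : ℝ) < ((n + 1 : ℕ) : ℝ) := by positivity
  rw [Nat.factorial_succ, Nat.cast_mul]
  have e : (schur (n + 1) : ℝ) / (((n + 1 : ℕ) : ℝ) * n.factorial)
        * (P * (((n + 1 : ℕ) : ℝ) / 3)) = (schur (n + 1) : ℝ) / 3 / n.factorial * P := by
    field_simp
  rw [e]
  refine mul_le_mul_of_nonneg_right ?_ hP
  exact div_le_div_of_nonneg_right (by linarith) hf.le

/-- One step at an `n` in the set `F`. -/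
lemma step_in {n : ℕ} {t P Q : ℝ} (ht : 0 ≤ t) (hP : 0 ≤ P)
    (hF : (1 + t) * (((n + 1 : ℕ) : ℝ) * (schur n + 1)) < schur (n + 1))
    (hPQ : Q ≤ (schur n : ℝ) / n.factorial * P) :
    Q * (1 + t) ≤ (schur (n + 1) : ℝ) / (n + 1).factorial * P := by
  have hf : (0 : ℝ) < n.factorial := by exact_mod_cast n.factorial_pos
  have hn1 : (0 : ℝ) < ((n + 1 : ℕ) : ℝ) := by positivity
  have hs : (0 : ℝ) ≤ schur n := Nat.cast_nonneg _
  have h1 : (schur n : ℝ) / n.factorial * (1 + t) ≤ (schur (n + 1) : ℝ) / (n + 1).factorial := by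
    rw [Nat.factorial_succ, Nat.cast_mul, div_mul_eq_mul_div, div_le_div_iff₀ hf (by positivity)]
    nlinarith [mul_pos hn1 hf, mul_nonneg (by linarith : (0 : ℝ) ≤ 1 + t) hn1.le]
  calc Q * (1 + t) ≤ ((schur n : ℝ) / n.factorial * P) * (1 + t) :=
        mul_le_mul_of_nonneg_right hPQ (by linarith)
    _ = ((schur n : ℝ) / n.factorial * (1 + t)) * P := by ring
    _ ≤ _ := mul_le_mul_of_nonneg_right h1 hP

open Classical in
/-- **Result.**  Let `a_n >= 0` and let `F` be the set of `n` with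
`S(n) > (1 + a_n) n (S(n-1) + 1)`.  For `1 <= M <= N`,
`(S(M)/M!) prod_(n in F, M < n <= N) (1 + a_n) <= (S(N)/N!) prod_(n not in F, M < n <= N) (n/3)`.
-/
theorem result (a : ℕ → ℝ) (ha : ∀ n, 0 ≤ a n) (M N : ℕ) (hM : 1 ≤ M) (hMN : M ≤ N) :
    (schur M : ℝ) / M.factorial *
        ∏ n ∈ (Finset.Ioc M N).filter
          (fun n => (1 + a n) * ((n : ℝ) * (schur (n - 1) + 1)) < schur n), (1 + a n)
      ≤ (schur N : ℝ) / N.factorial * ∏ n ∈ (Finset.Ioc M N).filter
          (fun n => ¬ ((1 + a n) * ((n : ℝ) * (schur (n - 1) + 1)) < schur n)),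
            ((n : ℝ) / 3) := by
  induction N, hMN using Nat.le_induction with
  | base => simp
  | succ K hK ih =>
    rw [prod_filter, prod_filter] at ih ⊢
    rw [prod_Ioc_succ_top hK, prod_Ioc_succ_top hK]
    have hP : 0 ≤ ∏ n ∈ Finset.Ioc M K,
        (if ¬ ((1 + a n) * ((n : ℝ) * (schur (n - 1) + 1)) < schur n)
          then ((n : ℝ) / 3) else 1) := by
      refine prod_nonneg fun n _ => ?_
      split_ifs <;> positivity
    by_cases hF : (1 + a (K + 1)) * (((K + 1 : ℕ) : ℝ) * (schur (K + 1 - 1) + 1))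
        < schur (K + 1)
    · rw [if_pos hF, if_neg (not_not.2 hF), mul_one, ← mul_assoc]
      exact step_in (ha _) hP hF ih
    · rw [if_neg hF, if_pos hF, mul_one]
      exact ih.trans (step_out (hM.trans hK) hP)

open Classical in
/-- The same with Schur's bound `S(N) < 3 N!` inserted. -/
theorem with_schur (a : ℕ → ℝ) (ha : ∀ n, 0 ≤ a n) (M N : ℕ) (hM : 1 ≤ M) (hMN : M ≤ N) :
    (schur M : ℝ) / M.factorial *
        ∏ n ∈ (Finset.Ioc M N).filter
          (fun n => (1 + a n) * ((n : ℝ) * (schur (n - 1) + 1)) < schur n), (1 + a n)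
      ≤ 3 * ∏ n ∈ (Finset.Ioc M N).filter
          (fun n => ¬ ((1 + a n) * ((n : ℝ) * (schur (n - 1) + 1)) < schur n)), ((n : ℝ) / 3) := by
  refine (result a ha M N hM hMN).trans ?_
  refine mul_le_mul_of_nonneg_right ?_ (prod_nonneg fun n _ => by positivity)
  have hlt : (schur N : ℝ) < 3 * N.factorial := by
    exact_mod_cast schur_lt (hM.trans hMN)
  rw [div_le_iff₀ (by exact_mod_cast N.factorial_pos)]
  exact hlt.le

/-- Reading (C), no extra factor: if the inequality of Q1 fails for all `n` with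
`M < n <= N`, then `S(N) / N! >= S(M) / M!`. -/
theorem factorial_growth (M N : ℕ) (hM : 1 ≤ M) (hMN : M ≤ N)
    (hF : ∀ n, M < n → n ≤ N → n * (schur (n - 1) + 1) < schur n) :
    schur M * N.factorial ≤ schur N * M.factorial := by
  classical
  have h := result (fun _ => 0) (fun _ => le_rfl) M N hM hMN
  have hF' : ∀ n ∈ Finset.Ioc M N,
      (1 + (0 : ℝ)) * ((n : ℝ) * (schur (n - 1) + 1)) < schur n := by
    intro n hn
    rw [Finset.mem_Ioc] at hn
    have := hF n hn.1 hn.2
    rw [add_zero, one_mul]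
    exact_mod_cast this
  rw [filter_true_of_mem hF', filter_false_of_mem fun n hn => not_not.2 (hF' n hn)] at h
  simp only [add_zero, prod_const_one, mul_one, prod_empty] at h
  have h1 : (0 : ℝ) < M.factorial := by exact_mod_cast M.factorial_pos
  have h2 : (0 : ℝ) < N.factorial := by exact_mod_cast N.factorial_pos
  rw [div_le_div_iff₀ h1 h2] at h
  exact_mod_cast h

/-- Reading (C'): if `S(n) / n!` tends to `0`, then `S(n) <= n (S(n-1) + 1)` for infinitely
many `n`. -/
theorem infinitely_many_exact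
    (h0 : Tendsto (fun n : ℕ => (schur n : ℝ) / n.factorial) atTop (nhds 0)) :
    ∃ᶠ n in atTop, schur n ≤ n * (schur (n - 1) + 1) := by
  intro hcon
  obtain ⟨M0, hM0⟩ := eventually_atTop.1 hcon
  set M := max M0 1 with hMdef
  have hM1 : 1 ≤ M := le_max_right _ _
  have hF : ∀ n, M < n → n * (schur (n - 1) + 1) < schur n := fun n hn =>
    not_le.1 (hM0 n ((le_max_left _ _).trans hn.le))
  have hpos : (0 : ℝ) < (schur M : ℝ) / M.factorial := by
    have h1 : (0 : ℝ) < schur M := by exact_mod_cast schur_pos hM1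
    have h2 : (0 : ℝ) < M.factorial := by exact_mod_cast M.factorial_pos
    positivity
  obtain ⟨N, hN1, hN2⟩ := ((h0.eventually_lt_const hpos).and (eventually_ge_atTop M)).exists
  have h := factorial_growth M N hM1 hN2 fun n hn _ => hF n hn
  have h1 : (0 : ℝ) < M.factorial := by exact_mod_cast M.factorial_pos
  have h2 : (0 : ℝ) < N.factorial := by exact_mod_cast N.factorial_pos
  rw [div_lt_div_iff₀ h2 h1] at hN1
  have h' : (schur M : ℝ) * N.factorial ≤ schur N * M.factorial := by exact_mod_cast h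
  exact absurd hN1 (not_lt.2 h')

lemma one_add_sum_le (a : ℕ → ℝ) (ha : ∀ n, 0 ≤ a n) (s : Finset ℕ) :
    1 + ∑ n ∈ s, a n ≤ ∏ n ∈ s, (1 + a n) := by
  classical
  induction s using Finset.induction_on with
  | empty => simp
  | insert x s hx ih =>
    rw [sum_insert hx, prod_insert hx]
    have h0 : 0 ≤ ∑ n ∈ s, a n := sum_nonneg fun n _ => ha n
    nlinarith [mul_le_mul_of_nonneg_left ih (by linarith [ha x] : (0 : ℝ) ≤ 1 + a x),
      mul_nonneg (ha x) h0]

/-- Reading (A): if `sum a_n` diverges, then `S(n) <= (1 + a_n) n (S(n-1) + 1)` for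
infinitely many `n`. -/
theorem infinitely_many (a : ℕ → ℝ) (ha : ∀ n, 0 ≤ a n) (hs : ¬ Summable a) :
    ∃ᶠ n in atTop, (schur n : ℝ) ≤ (1 + a n) * ((n : ℝ) * (schur (n - 1) + 1)) := by
  classical
  intro hcon
  obtain ⟨M0, hM0⟩ := eventually_atTop.1 hcon
  set M := max M0 1 with hMdef
  have hM1 : 1 ≤ M := le_max_right _ _
  have hF : ∀ n, M ≤ n → (1 + a n) * ((n : ℝ) * (schur (n - 1) + 1)) < schur n := by
    intro n hn
    exact not_le.1 (hM0 n ((le_max_left _ _).trans hn))
  have hpos : (0 : ℝ) < (schur M : ℝ) / M.factorial := by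
    have h1 : (0 : ℝ) < schur M := by exact_mod_cast schur_pos hM1
    have h2 : (0 : ℝ) < M.factorial := by exact_mod_cast M.factorial_pos
    positivity
  have hb : ∀ N, M ≤ N → (schur M : ℝ) / M.factorial * ∑ n ∈ Finset.Ioc M N, a n ≤ 3 := by
    intro N hN
    have h := with_schur a ha M N hM1 hN
    have e1 : (Finset.Ioc M N).filter
        (fun n => (1 + a n) * ((n : ℝ) * (schur (n - 1) + 1)) < schur n) = Finset.Ioc M N := by
      refine filter_true_of_mem fun n hn => hF n ?_
      exact (Finset.mem_Ioc.1 hn).1.le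
    have e2 : (Finset.Ioc M N).filter
        (fun n => ¬ ((1 + a n) * ((n : ℝ) * (schur (n - 1) + 1)) < schur n)) = ∅ := by
      refine filter_false_of_mem fun n hn => not_not.2 (hF n ?_)
      exact (Finset.mem_Ioc.1 hn).1.le
    rw [e1, e2, prod_empty, mul_one] at h
    have h2 : 1 + ∑ n ∈ Finset.Ioc M N, a n ≤ ∏ n ∈ Finset.Ioc M N, (1 + a n) :=
      one_add_sum_le a ha _
    nlinarith [mul_le_mul_of_nonneg_left h2 hpos.le]
  have ht := (not_summable_iff_tendsto_nat_atTop_of_nonneg ha).1 hs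
  obtain ⟨N, hN1, hN2⟩ := ((ht.eventually_gt_atTop
    (3 / ((schur M : ℝ) / M.factorial) + ∑ n ∈ range (M + 1), a n)).and
      (eventually_ge_atTop (M + 1))).exists
  obtain ⟨K, rfl⟩ : ∃ K, N = K + 1 := ⟨N - 1, by omega⟩
  have hK : M ≤ K := by omega
  have hsplit : ∑ n ∈ range (K + 1), a n
      = ∑ n ∈ range (M + 1), a n + ∑ n ∈ Finset.Ioc M K, a n := by
    have : Finset.Ioc M K = Finset.Ico (M + 1) (K + 1) := by
      ext n
      simp only [Finset.mem_Ioc, Finset.mem_Ico]
      omega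
    rw [this]
    exact (sum_range_add_sum_Ico a (by omega)).symm
  have h3 := hb K hK
  rw [hsplit] at hN1
  have h4 : 3 / ((schur M : ℝ) / M.factorial) < ∑ n ∈ Finset.Ioc M K, a n := by linarith
  rw [div_lt_iff₀ hpos] at h4
  linarith [mul_comm (∑ n ∈ Finset.Ioc M K, a n) ((schur M : ℝ) / M.factorial)]

open Classical in
/-- Reading (B): if `G` is the number of `n` in `[2, N]` with
`S(n) <= (1 + d) n (S(n-1) + 1)`, then `(1 + d)^(N-1) <= 3 ((1 + d) N)^G`. -/
theorem many (d : ℝ) (hd : 0 ≤ d) (N : ℕ) (hN : 1 ≤ N) :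
    (1 + d) ^ (N - 1) ≤ 3 * ((1 + d) * N) ^ ((Finset.Ioc 1 N).filter
      (fun n : ℕ => ¬ ((1 + d) * ((n : ℝ) * (schur (n - 1) + 1)) < schur n))).card := by
  have h := with_schur (fun _ => d) (fun _ => hd) 1 N le_rfl hN
  have h1 : (1 : ℝ) ≤ (schur 1 : ℝ) / (Nat.factorial 1) := by
    have : (1 : ℝ) ≤ schur 1 := by exact_mod_cast schur_pos le_rfl
    simpa using this
  set F := (Finset.Ioc 1 N).filter
    (fun n : ℕ => (1 + d) * ((n : ℝ) * (schur (n - 1) + 1)) < schur n) with hF
  set G := (Finset.Ioc 1 N).filter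
    (fun n : ℕ => ¬ ((1 + d) * ((n : ℝ) * (schur (n - 1) + 1)) < schur n)) with hG
  have hcard : F.card + G.card = N - 1 := by
    rw [hF, hG, card_filter_add_card_filter_not]
    simp
  rw [prod_const] at h
  have hN0 : (1 : ℝ) ≤ N := by exact_mod_cast hN
  have h2 : ∏ n ∈ G, ((n : ℝ) / 3) ≤ (N : ℝ) ^ G.card := by
    rw [← prod_const]
    refine prod_le_prod (fun n _ => by positivity) fun n hn => ?_
    have hn' : n ≤ N := (Finset.mem_Ioc.1 (mem_filter.1 hn).1).2
    have hn'' : (n : ℝ) ≤ N := by exact_mod_cast hn'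
    have : (0 : ℝ) ≤ n := Nat.cast_nonneg n
    linarith
  have h3 : (1 + d) ^ F.card ≤ 3 * (N : ℝ) ^ G.card := by
    have h4 : (1 + d) ^ F.card ≤ (schur 1 : ℝ) / (Nat.factorial 1) * (1 + d) ^ F.card :=
      le_mul_of_one_le_left (by positivity) h1
    linarith
  rw [← hcard, pow_add, mul_pow]
  have h5 : (0 : ℝ) ≤ (1 + d) ^ G.card := by positivity
  calc (1 + d) ^ F.card * (1 + d) ^ G.card ≤ (3 * (N : ℝ) ^ G.card) * (1 + d) ^ G.card :=
        mul_le_mul_of_nonneg_right h3 h5
    _ = 3 * ((1 + d) ^ G.card * (N : ℝ) ^ G.card) := by ring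

end Pool.Agent.Results.MP_a4f665_co.NearMisses
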